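import Pool.Agent.W851.BE.Stm
import Pool.Agent.W407.BK.Iter

/-! Algebra of the conjugation by `z ↦ 1 / (z - c)`. -/

set_option autoImplicit false

open Polynomial

namespace Pool.Agent.W999.BE.Conj

open Pool.Agent.W95.BK Pool.Agent.W851.BE Pool.Agent.W407.BK

universe u

section
variable {K : Type u} [Field K]

lemma coeff_lin_pow (c : K) (i n : ℕ) : ((C c * X + 1 : K[X]) ^ i).coeff n =
    (i.choose n : K) * c ^ n := by
  have h : (C c * X + 1 : K[X]) ^ i = ((X + 1 : K[X]) ^ i).comp (C c * X) := by
    simp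
  rw [h, comp_C_mul_X_coeff, coeff_X_add_one_pow]

lemma hom_lin_coeff_top {N : ℕ} {h : K[X]} (hh : h.natDegree ≤ N) (c : K) :
    (hom N h (C c * X + 1) X).coeff N = h.eval c := by
  rw [eval_eq_sum_range' (n := N + 1) (by omega)]
  unfold hom
  rw [finsetSum_coeff]
  refine Finset.sum_congr rfl fun i hi => ?_
  have hi' : i ≤ N := by have := Finset.mem_range.1 hi; omega
  rw [coeff_mul_X_pow', if_pos (Nat.sub_le _ _), coeff_C_mul, coeff_lin_pow,
    show N - (N - i) = i by omega, Nat.choose_self, Nat.cast_one, one_mul]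

lemma hom_lin_coeff_sub {N : ℕ} (hN : 1 ≤ N) {h : K[X]} (hh : h.natDegree ≤ N) (c : K) :
    (hom N h (C c * X + 1) X).coeff (N - 1) = h.derivative.eval c := by
  rw [derivative_eval, sum_over_range' _ (by intro n; simp) (N + 1) (by omega)]
  unfold hom
  rw [finsetSum_coeff]
  refine Finset.sum_congr rfl fun i hi => ?_
  have hi' : i ≤ N := by have := Finset.mem_range.1 hi; omega
  rcases Nat.eq_zero_or_pos i with h0 | h0
  · subst h0
    rw [coeff_mul_X_pow', if_neg (by omega)]
    simp
  · rw [coeff_mul_X_pow', if_pos (by omega), coeff_C_mul, coeff_lin_pow,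
      show N - 1 - (N - i) = i - 1 by omega]
    have h1 : i.choose (i - 1) = i := by
      rw [Nat.choose_symm_of_eq_add (show i = (i - 1) + 1 by omega), Nat.choose_one_right]
    rw [h1]
    ring

lemma hom_one (h a b : K[X]) : hom 1 h a b = C (h.coeff 0) * b + C (h.coeff 1) * a := by
  simp [hom, Finset.sum_range_succ]

variable [IsAlgClosed K]

end

theorem main : S_CONJ.{u} := by
  intro K _ _ _ R c
  have e1 : (mob c).comp (mobi c) = RMap.id K := by
    refine rext ?_ ?_ rfl
    · change hom 1 1 (C c * X + 1) X = X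
      rw [hom_one]
      simp [coeff_one]
    · change hom 1 (X - C c) (C c * X + 1) X = 1
      rw [hom_one]
      simp [coeff_X, coeff_C]
  have e2 : (mobi c).comp (mob c) = RMap.id K := by
    refine rext ?_ ?_ rfl
    · change hom 1 (C c * X + 1) 1 (X - C c) = X
      rw [hom_one]
      simp [coeff_X, coeff_C, coeff_one]
    · change hom 1 X 1 (X - C c) = 1
      rw [hom_one]
      simp [coeff_X]
  have hd : (conjM R c).d = R.d := by
    change 1 * (R.d * 1) = R.d
    ring
  refine ⟨e1, e2, hd, ?_, ?_⟩
  · intro n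
    induction n with
    | zero =>
      change RMap.id K = (mob c).comp ((RMap.id K).comp (mobi c))
      rw [W407.BK.id_comp, e1]
    | succ n ih =>
      change (conjM R c).comp ((conjM R c).iter n) = (mob c).comp ((R.comp (R.iter n)).comp (mobi c))
      rw [ih]
      unfold conjM
      rw [W407.BK.comp_assoc, W407.BK.comp_assoc, ← W407.BK.comp_assoc (mobi c), e2,
        W407.BK.id_comp, W407.BK.comp_assoc]
  · intro hQ hP hw
    have hN := R.pos
    have hdeg1 := sub_deg R c
    have hQ' : (conjM R c).Q = hom R.d (R.P - C c * R.Q) (C c * X + 1) X := by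
      change hom 1 (X - C c) (hom R.d R.P (C c * X + 1) X) (hom R.d R.Q (C c * X + 1) X) = _
      have h1 : R.P - C c * R.Q = R.P + C (-c) * R.Q := by rw [C_neg]; ring
      rw [h1, hom_add, hom_C_mul, hom_one]
      simp [coeff_X, coeff_C]
      ring
    have hP' : (conjM R c).P = hom R.d R.Q (C c * X + 1) X := by
      change hom 1 1 (hom R.d R.P (C c * X + 1) X) (hom R.d R.Q (C c * X + 1) X) = _
      rw [hom_one]
      simp [coeff_one]
    refine ⟨?_, ?_⟩
    · rw [hd, hQ', hom_lin_coeff_top hdeg1]
      simp [hP]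
    · rw [hd, hQ', hP', hom_lin_coeff_sub hN hdeg1, hom_lin_coeff_top (degQ R)]
      have h1 : (wr R).eval c = R.Q.eval c * (derivative (R.P - C c * R.Q)).eval c := by
        unfold wr
        simp [hP]
        ring
      rw [h1, norm_mul, pow_two] at hw
      exact le_of_mul_le_mul_left hw (norm_pos_iff.2 hQ)

end Pool.Agent.W999.BE.Conj
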